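import Pool.Agent.Y346.EH.Sh

/-!
# Equality for the diamonds in the plane
-/

namespace Pool.Agent.Y346.EH

open MeasureTheory Set Pool.Agent.W503.EH

/-- the square with the vertices `(± N, 0)`, `(0, ± N)` -/
def diamond (N : ℕ) : Set (EuclideanSpace ℝ (Fin 2)) := {x | |x 0| + |x 1| ≤ N}

theorem shadow_diamond (N : ℕ) (e : Fin 1 → ℤˣ) :
    shadow e (diamond N) = Icc (fun _ => -(N : ℝ)) (fun _ => (N : ℝ)) := by
  ext z
  simp only [shadow, diamond, mem_ofPred_eq, mem_Icc, Pi.le_def]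
  constructor
  · rintro ⟨x, hx, h⟩
    have h0 := h 0
    have he : (((e 0 : ℤˣ) : ℤ) : ℝ) = 1 ∨ (((e 0 : ℤˣ) : ℤ) : ℝ) = -1 := by
      rcases Int.units_eq_one_or (e 0) with h | h <;> simp [h]
    have a1 := abs_le.1 (le_refl |x 0|)
    have a2 := abs_le.1 (le_refl |x 1|)
    have e1 : x (Fin.succ 0) = x 1 := rfl
    rw [e1] at h0
    have hz : -(N : ℝ) ≤ z 0 ∧ z 0 ≤ N := by
      rcases he with he | he <;> rw [he] at h0 <;> constructor <;> linarith [a1.1, a1.2, a2.1, a2.2]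
    constructor <;> intro i <;> rw [Subsingleton.elim i 0]
    · exact hz.1
    · exact hz.2
  · rintro ⟨h1, h2⟩
    refine ⟨WithLp.toLp 2 ![0, z 0], ?_, ?_⟩
    · simp only [Matrix.cons_val_zero, abs_zero, zero_add, Matrix.cons_val_one]
      exact abs_le.2 ⟨h1 0, h2 0⟩
    · intro i
      rw [Subsingleton.elim i 0]
      simp

theorem meanShadow_diamond (N : ℕ) : meanShadow (diamond N) = 2 * N := by
  unfold meanShadow
  simp only [shadow_diamond]
  have h : volume.real (Icc (fun _ : Fin 1 => -(N : ℝ)) (fun _ => (N : ℝ))) = 2 * N := by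
    rw [measureReal_def, Real.volume_Icc_pi_toReal]
    · simp [two_mul]
    · intro i; simp
  rw [h]
  simp

theorem volume_diamond (N : ℕ) : volume.real (diamond N) = 2 * N ^ 2 := by
  have hc : IsCompact (diamond N) := by
    have hcl : IsClosed (diamond N) := isClosed_le (by fun_prop) continuous_const
    refine Metric.isCompact_of_isClosed_isBounded hcl ?_
    rw [Metric.isBounded_iff_subset_closedBall 0]
    refine ⟨N, fun x hx => ?_⟩
    rw [mem_closedBall_zero_iff, EuclideanSpace.norm_eq]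
    refine Real.sqrt_le_iff.2 ⟨Nat.cast_nonneg _, ?_⟩
    simp only [Real.norm_eq_abs, Fin.sum_univ_two]
    have hx' : |x 0| + |x 1| ≤ N := hx
    nlinarith [abs_nonneg (x 0), abs_nonneg (x 1)]
  rw [← vol_fl hc]
  have h := MeasureTheory.volume_sum_rpow_le (Fin 2) (p := 1) le_rfl (N : ℝ)
  have e : fl (diamond N) = {x : Fin 2 → ℝ | (∑ i, |x i| ^ (1 : ℝ)) ^ (1 / (1 : ℝ)) ≤ N} := by
    ext x
    simp [fl, diamond, Fin.sum_univ_two]
  unfold vol
  rw [e, measureReal_def, h]
  have hG : Real.Gamma (1 / 1 + 1) = 1 := by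
    norm_num
  have hG2 : Real.Gamma (((Fintype.card (Fin 2) : ℕ) : ℝ) / 1 + 1) = 2 := by
    have := Real.Gamma_nat_eq_factorial 2
    simp only [Fintype.card_fin, div_one]
    rw [this]
    norm_num [Nat.factorial]
  rw [hG, hG2]
  rw [ENNReal.toReal_mul, ENNReal.toReal_pow, ENNReal.toReal_ofReal (Nat.cast_nonneg _),
    ENNReal.toReal_ofReal (by positivity)]
  simp
  ring

theorem sum_abs (N : ℕ) : ∑ a ∈ Finset.Icc (-(N : ℤ)) N, |a| = N * (N + 1) := by
  induction N with
  | zero => simp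
  | succ N ih =>
    have h : Finset.Icc (-((N + 1 : ℕ) : ℤ)) ((N + 1 : ℕ) : ℤ) =
        insert (-((N : ℤ) + 1)) (insert ((N : ℤ) + 1) (Finset.Icc (-(N : ℤ)) N)) := by
      ext a
      simp only [Finset.mem_Icc, Finset.mem_insert]
      push_cast
      omega
    rw [h, Finset.sum_insert, Finset.sum_insert, ih]
    · rw [abs_neg, abs_of_nonneg (by positivity : (0 : ℤ) ≤ (N : ℤ) + 1)]
      push_cast
      ring
    · simp
    · simp only [Finset.mem_insert, Finset.mem_Icc]
      omega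

theorem count_diamond (N : ℕ) : (diamond N ∩ latticePoints 2).ncard = 2 * N ^ 2 + 2 * N + 1 := by
  classical
  let S : Finset (Σ _ : ℤ, ℤ) := (Finset.Icc (-(N : ℤ)) N).sigma
    (fun a => Finset.Icc (-((N : ℤ) - |a|)) (N - |a|))
  have h1 : diamond N ∩ latticePoints 2 =
      (fun p : (Σ _ : ℤ, ℤ) => (WithLp.toLp 2 ![(p.1 : ℝ), (p.2 : ℝ)] : EuclideanSpace ℝ (Fin 2))) ''
        (S : Set (Σ _ : ℤ, ℤ)) := by
    ext x
    constructor
    · rintro ⟨hx, hl⟩
      obtain ⟨a, ha⟩ := hl 0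
      obtain ⟨b, hb⟩ := hl 1
      have hx' : |x 0| + |x 1| ≤ N := hx
      rw [ha, hb] at hx'
      have h2 : |a| + |b| ≤ (N : ℤ) := by
        have h6 : ((|a| + |b| : ℤ) : ℝ) ≤ ((N : ℤ) : ℝ) := by
          rw [Int.cast_add, Int.cast_abs, Int.cast_abs, Int.cast_natCast]
          exact hx'
        exact Int.cast_le.1 h6
      have h3 := abs_le.1 (show |b| ≤ (N : ℤ) - |a| by linarith)
      have h4 := abs_le.1 (show |a| ≤ (N : ℤ) by linarith [abs_nonneg b])
      refine ⟨⟨a, b⟩, ?_, ?_⟩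
      · simp only [S, Finset.coe_sigma, Finset.coe_Icc, Set.mem_sigma_iff, mem_Icc]
        exact ⟨h4, h3⟩
      · ext i
        fin_cases i
        · simp [ha]
        · simp [hb]
    · rintro ⟨⟨a, b⟩, hp, rfl⟩
      simp only [S, Finset.coe_sigma, Finset.coe_Icc, Set.mem_sigma_iff, mem_Icc] at hp
      obtain ⟨h4, h3⟩ := hp
      have h5 : |b| ≤ (N : ℤ) - |a| := abs_le.2 h3
      have h2 : |a| + |b| ≤ (N : ℤ) := by linarith
      refine ⟨?_, ?_⟩
      · change |((a : ℤ) : ℝ)| + |((b : ℤ) : ℝ)| ≤ (N : ℝ)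
        have h6 : ((|a| + |b| : ℤ) : ℝ) ≤ ((N : ℤ) : ℝ) := Int.cast_le.2 h2
        rw [Int.cast_add, Int.cast_abs, Int.cast_abs, Int.cast_natCast] at h6
        exact h6
      · intro j
        fin_cases j
        · exact ⟨a, by simp⟩
        · exact ⟨b, by simp⟩
  have hinj : Function.Injective (fun p : (Σ _ : ℤ, ℤ) =>
      (WithLp.toLp 2 ![(p.1 : ℝ), (p.2 : ℝ)] : EuclideanSpace ℝ (Fin 2))) := by
    rintro ⟨a, b⟩ ⟨c, d⟩ h
    have h1 := congrArg (fun x : EuclideanSpace ℝ (Fin 2) => x 0) h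
    have h2 := congrArg (fun x : EuclideanSpace ℝ (Fin 2) => x 1) h
    simp only [Matrix.cons_val_zero, Matrix.cons_val_one, Int.cast_inj] at h1 h2
    rw [h1, h2]
  rw [h1, ncard_image_of_injective _ hinj, ncard_coe_finset]
  have h2 : (S.card : ℤ) = 2 * N ^ 2 + 2 * N + 1 := by
    simp only [S, Finset.card_sigma]
    push_cast
    have h3 : ∀ a ∈ Finset.Icc (-(N : ℤ)) N,
        ((Finset.Icc (-((N : ℤ) - |a|)) (N - |a|)).card : ℤ) = (2 * N + 1) - 2 * |a| := by
      intro a ha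
      rw [Finset.mem_Icc] at ha
      have h5 : |a| ≤ (N : ℤ) := abs_le.2 ha
      rw [Int.card_Icc, Int.toNat_of_nonneg (by linarith)]
      ring
    rw [Finset.sum_congr rfl h3, Finset.sum_sub_distrib, ← Finset.mul_sum, sum_abs,
      Finset.sum_const, Int.card_Icc, nsmul_eq_mul, Int.toNat_of_nonneg (by omega)]
    ring
  exact_mod_cast h2

/-- equality in the sharp inequality for the diamonds -/
theorem diamond_eq (N : ℕ) : ((diamond N ∩ latticePoints 2).ncard : ℝ) =
    volume.real (diamond N) + meanShadow (diamond N) + 1 := by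
  rw [count_diamond, volume_diamond, meanShadow_diamond]
  push_cast
  ring

end Pool.Agent.Y346.EH
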