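import Pool.Agent.W503.EH.All

/-!
# The sharper form of Ehrhart's inequality, with the diagonal shadows instead of the surface area
-/

namespace Pool.Agent.Y346.EH

open MeasureTheory Set Pool.Agent.W503.EH

/-- sum over the sign vectors of length `m` -/
theorem av_eq (m : ℕ) (F : (Fin m → ℝ) → ℝ) :
    av m F = (∑ e : Fin m → ℤˣ, F (fun i => (((e i : ℤˣ) : ℤ) : ℝ))) / 2 ^ m := by
  induction m with
  | zero =>
    simp only [av, pow_zero, div_one, Finset.univ_unique, Finset.sum_singleton]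
    congr 1
    exact Subsingleton.elim _ _
  | succ m ih =>
    simp only [av]
    rw [ih, ih]
    have h1 : ∀ G : (Fin (m + 1) → ℤˣ) → ℝ, ∑ e, G e =
        ∑ e : Fin m → ℤˣ, G (Fin.cons 1 e) + ∑ e : Fin m → ℤˣ, G (-(Fin.cons 1 e : Fin (m + 1) → ℤˣ)) := by
      intro G
      have h2 : ∑ e, G e = ∑ p : ℤˣ × (Fin m → ℤˣ), G (Fin.cons p.1 p.2) :=
        (Fintype.sum_equiv (Fin.consEquiv (fun _ : Fin (m + 1) => ℤˣ)) _ _ fun p => rfl).symm
      have h3 : ∑ e : Fin m → ℤˣ, G (-(Fin.cons 1 e : Fin (m + 1) → ℤˣ)) =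
          ∑ e : Fin m → ℤˣ, G (Fin.cons (-1) e) := by
        refine Fintype.sum_equiv (Equiv.neg _) _ _ fun e => ?_
        congr 1
        ext i
        refine Fin.cases ?_ (fun i => ?_) i <;> simp
      have h4 : (Finset.univ : Finset ℤˣ) = {1, -1} := by decide
      rw [h3, h2, Fintype.sum_prod_type, h4]
      rw [Finset.sum_insert (by decide), Finset.sum_singleton]
    rw [h1]
    have e1 : ∀ e : Fin m → ℤˣ, (fun i => ((((Fin.cons 1 e : Fin (m + 1) → ℤˣ) i : ℤˣ) : ℤ) : ℝ)) =
        cs 1 (fun i => (((e i : ℤˣ) : ℤ) : ℝ)) := by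
      intro e
      ext i
      refine Fin.cases ?_ (fun i => ?_) i <;> simp
    have e2 : ∀ e : Fin m → ℤˣ,
        (fun i => ((((-(Fin.cons 1 e : Fin (m + 1) → ℤˣ)) i : ℤˣ) : ℤ) : ℝ)) =
        - cs 1 (fun i => (((e i : ℤˣ) : ℤ) : ℝ)) := by
      intro e
      ext i
      refine Fin.cases ?_ (fun i => ?_) i <;> simp
    simp only [e1, e2]
    rw [pow_succ]
    field_simp

/-- The shadow of `K` on the hyperplane `x 0 = 0` in the diagonal direction `(1, e)`. -/
def shadow {m : ℕ} (e : Fin m → ℤˣ) (K : Set (EuclideanSpace ℝ (Fin (m + 1)))) :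
    Set (Fin m → ℝ) :=
  {z | ∃ x ∈ K, ∀ i : Fin m, z i = x i.succ - x 0 * (((e i : ℤˣ) : ℤ) : ℝ)}

/-- The average over the `2 ^ m` sign vectors `e` of the volume of the shadow in direction
`(1, e)`. -/
noncomputable def meanShadow {m : ℕ} (K : Set (EuclideanSpace ℝ (Fin (m + 1)))) : ℝ :=
  (∑ e : Fin m → ℤˣ, volume.real (shadow e K)) / 2 ^ m

theorem shadow_eq {m : ℕ} (e : Fin m → ℤˣ) (K : Set (EuclideanSpace ℝ (Fin (m + 1)))) :
    shadow e K = pr (fun i => (((e i : ℤˣ) : ℤ) : ℝ)) (fl K) := by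
  ext z
  simp only [shadow, pr, fl, mem_ofPred_eq, mem_preimage]
  constructor
  · rintro ⟨x, hx, h⟩
    refine ⟨x 0, ?_⟩
    have : cs (x 0) (z + x 0 • fun i => (((e i : ℤˣ) : ℤ) : ℝ)) = WithLp.ofLp x := by
      ext i
      refine Fin.cases ?_ (fun i => ?_) i
      · rfl
      · simp [h i]
    rw [this]
    exact hx
  · rintro ⟨s, hs⟩
    refine ⟨_, hs, fun i => ?_⟩
    simp

theorem meanShadow_eq {m : ℕ} (K : Set (EuclideanSpace ℝ (Fin (m + 1)))) :
    meanShadow K = TT (fl K) := by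
  unfold meanShadow TT
  rw [av_eq]
  congr 1
  refine Finset.sum_congr rfl fun e _ => ?_
  rw [shadow_eq]
  rfl

/-- The inequality with the mean shadow. -/
theorem sharp {m : ℕ}
    (K : Set (EuclideanSpace ℝ (Fin (m + 1)))) (hK : IsCompact K) (hKc : Convex ℝ K)
    (hne : K.Nonempty) (w : ℕ → ℝ) (hw : IsIntrinsic (latticeBox K) w) :
    ((K ∩ latticePoints (m + 1)).ncard : ℝ) ≤
      volume.real K + meanShadow K + ∑ i ∈ Finset.range m, w i := by
  -- the box
  let lo' : Fin (m + 1) → ℝ := fun j => sInf ((fun y : EuclideanSpace ℝ (Fin (m + 1)) => y j) '' K)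
  let hi' : Fin (m + 1) → ℝ := fun j => sSup ((fun y : EuclideanSpace ℝ (Fin (m + 1)) => y j) '' K)
  have hcj : ∀ j, IsCompact ((fun y : EuclideanSpace ℝ (Fin (m + 1)) => y j) '' K) := fun j =>
    hK.image (by fun_prop)
  have hlo : ∀ x ∈ K, ∀ j, lo' j ≤ x j := fun x hx j =>
    csInf_le (hcj j).bddBelow ⟨x, hx, rfl⟩
  have hhi : ∀ x ∈ K, ∀ j, x j ≤ hi' j := fun x hx j =>
    le_csSup (hcj j).bddAbove ⟨x, hx, rfl⟩
  obtain ⟨x0, hx0⟩ := hne
  have hlh : ∀ j, lo' j ≤ hi' j := fun j => (hlo x0 hx0 j).trans (hhi x0 hx0 j)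
  let a : Fin (m + 1) → ℤ := fun j => ⌊lo' j⌋
  let n : Fin (m + 1) → ℕ := fun j => (⌈hi' j⌉ - ⌊lo' j⌋).toNat
  have han : ∀ j, (a j : ℝ) + (n j : ℝ) = ⌈hi' j⌉ := by
    intro j
    have h1 : ⌊lo' j⌋ ≤ ⌈hi' j⌉ := by
      have h2 := Int.floor_le (lo' j)
      have h3 := Int.le_ceil (hi' j)
      exact_mod_cast h2.trans ((hlh j).trans h3)
    have h2 : a j + (n j : ℤ) = ⌈hi' j⌉ := by
      simp only [a, n]
      omega
    exact_mod_cast h2
  have hbox : latticeBox K = ebx a n := by
    ext x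
    simp only [latticeBox, ebx, mem_ofPred_eq]
    refine forall_congr' fun j => ?_
    rw [han j]
  rw [hbox] at hw
  have hebxc : IsCompact (ebx a n) := by
    have h1 : fl (ebx a n) = Icc (fun i => (a i : ℝ)) (fun i => (a i : ℝ) + n i) := by
      ext x
      simp only [fl, ebx, mem_preimage, mem_ofPred_eq, mem_Icc, Pi.le_def]
      constructor
      · intro h
        exact ⟨fun i => (h i).1, fun i => (h i).2⟩
      · intro h i
        exact ⟨h.1 i, h.2 i⟩
    have h2 : ebx a n = WithLp.toLp 2 '' (fl (ebx a n)) := by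
      ext x
      constructor
      · intro hx
        exact ⟨WithLp.ofLp x, hx, rfl⟩
      · rintro ⟨y, hy, rfl⟩
        exact hy
    rw [h2, h1]
    exact isCompact_Icc.image (PiLp.continuous_toLp 2 _)
  have hwe := intrinsic_box Pool.Agent.W368.EH.t_STE hw hebxc
  have hsub : fl K ⊆ bx a n := by
    intro x hx i
    have h1 := hlo _ hx i
    have h2 := hhi _ hx i
    constructor
    · exact (Int.floor_le _).trans h1
    · rw [han i]
      exact h2.trans (Int.le_ceil _)
  have key := t_MAIN' m (fl K) (isCompact_fl hK) (convex_fl hKc) a n hsub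
  have hcard : (K ∩ latticePoints (m + 1)).ncard = (fl K ∩ lat (m + 1)).ncard := by
    have : fl K ∩ lat (m + 1) = WithLp.ofLp '' (K ∩ latticePoints (m + 1)) := by
      ext x
      constructor
      · rintro ⟨hx, hxl⟩
        exact ⟨WithLp.toLp 2 x, ⟨hx, hxl⟩, rfl⟩
      · rintro ⟨y, ⟨hy, hyl⟩, rfl⟩
        exact ⟨hy, hyl⟩
    rw [this, ncard_image_of_injective _ (WithLp.ofLp_injective 2)]
  have hlosum : lo (fun i => (n i : ℝ)) = ∑ i ∈ Finset.range m, w i := by
    have h1 : ∀ i ∈ Finset.range m, w i = ∑ s ∈ (Finset.univ : Finset (Finset (Fin (m + 1)))).filter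
        (fun s => s.card = i), ∏ j ∈ s, (n j : ℝ) := by
      intro i hi
      rw [Finset.mem_range] at hi
      have h2 := hwe (m + 1 - i) (by omega)
      have h3 : m + 1 - (m + 1 - i) = i := by omega
      rw [h3] at h2
      rw [h2]
      unfold el
      refine Finset.sum_congr ?_ fun _ _ => rfl
      ext s
      simp only [Finset.mem_filter, Finset.mem_univ, true_and]
      omega
    rw [Finset.sum_congr rfl h1]
    unfold lo
    rw [← Finset.sum_biUnion]
    · refine Finset.sum_congr ?_ fun _ _ => rfl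
      ext s
      simp only [Finset.mem_filter, Finset.mem_univ, true_and, Finset.mem_biUnion,
        Finset.mem_range, exists_eq_right']
      omega
    · intro i _ j _ hij
      simp only [Function.onFun]
      rw [Finset.disjoint_left]
      intro s hs hs'
      simp only [Finset.mem_filter, Finset.mem_univ, true_and] at hs hs'
      exact hij (hs.symm.trans hs')
  rw [hcard, ← hlosum, ← vol_fl hK, meanShadow_eq]
  linarith

/-- The mean shadow is at most half of the surface area. -/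
theorem meanShadow_le {m : ℕ}
    (K : Set (EuclideanSpace ℝ (Fin (m + 1)))) (hK : IsCompact K) (hKc : Convex ℝ K)
    (hne : K.Nonempty) (v : ℕ → ℝ) (hv : IsIntrinsic K v) : meanShadow K ≤ v m := by
  rw [meanShadow_eq]
  exact (TT_le t_THICK' hK hKc hne hv).2

end Pool.Agent.Y346.EH
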